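import Pool.Agent.Helper79K.TS.Avoid
import Pool.Agent.Helper79K.TS.Zfc
import Pool.Agent.Helper79K.TS.Triv

/-!
# The plane may be covered by few continuous graphs but not by few differentiable graphs

The first part of the theorem is about a forcing notion `P`, a set `W` and a family of codes of
continuous functions of the Cantor space, indexed by `W` (all in the ground model): every condition
forces

* the covering property: of any two subsets of the natural numbers, one is the value at the other
  one of a function with a code in the family;
* the avoidance property: if sets `A w` of finite ternary sequences, for `w` in `W`, contain no full
  set (a full set contains the empty sequence, and for each of its members the three one-term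
  extensions of some extension of it), then some infinite ternary sequence has, for every `w`, an
  initial segment outside `A w`.

The second part is a theorem of ZFC: if some `W` and some family of codes have the two properties
then the plane is covered by fewer than continuum many graphs (and reflected graphs) of continuous
functions, but not by fewer than continuum many graphs (and reflected graphs) of differentiable
functions, and hence not by fewer than continuum many graphs of `C^1` functions. Applied in a
generic extension by `P` it shows that neither implication of the problem is a theorem of ZFC.

The forcing notion is a version of the iteration with countable supports, of length the cardinal
successor of the continuum, of the forcing with perfect ternary trees in which every splitting node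
has three immediate successors. Its conditions are presented as iterated perfect embeddings, which
form a monoid. For the covering property: two names of reals are read continuously, and of two
continuous functions one can be made a function of the other one by fusion. For the avoidance
property: a generic sequence at a closure point of cofinality `ω₁` of the given names works. For the
second part the points of the plane whose coordinates have the decimal digits `0, 3, 9` and
`0, 9, 3`, read off a ternary sequence, are used: a full set of them gives, at some point of every
differentiable graph containing them, difference quotients which are far apart.
-/

set_option autoImplicit false

namespace Pool.Agent.Results.MP_8d1edd_lc.ContinuousNotSmooth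

open Cardinal Pool.Agent.Helper79K.TS

/-- Some forcing notion forces the covering property and the avoidance property for some `W` and
`c`; and these two properties imply that the plane is covered by fewer than continuum many graphs
of continuous functions but not by fewer than continuum many graphs of differentiable, or of `C^1`,
functions. -/
theorem result :
    (∃ (P : Type) (_ : Preorder P) (_ : Nonempty P) (W : Type)
      (c : W → ℕ → Finset (List Bool)), ∀ p : P, p ∈ CoverN (P := P) W c ∧ p ∈ AvoidN P W) ∧
    ∀ (W : Type) (c : W → ℕ → Finset (List Bool)), Cover W c → Avoid W →
      Covered {f | Continuous f} ∧ ¬ Covered {f | Differentiable ℝ f} ∧
        ¬ Covered {f | ContDiff ℝ 1 f} := by
  refine ⟨⟨Cond (Sc 𝔠), inferInstance, ⟨1⟩, ℕ → Finset (List Bool), id, fun p => ⟨?_, ?_⟩⟩,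
    fun W c h h' => ⟨?_, ?_, ?_⟩⟩
  · exact cover_forced p
  · apply avoid_forced
    rw [← Cardinal.power_def, Cardinal.mk_nat]
    refine (Cardinal.power_le_power_right ((Cardinal.mk_le_aleph0 (α := Finset (List Bool))).trans
      Cardinal.aleph0_le_continuum)).trans ?_
    exact Cardinal.continuum_power_aleph0.le
  · exact covered_continuous h (mk_lt_of_avoid h')
  · exact not_covered h h'
  · rintro ⟨F, hF, hF'⟩
    exact not_covered h h' ⟨F, fun f hf => (show ContDiff ℝ 1 f from hF hf).differentiable one_ne_zero, hF'⟩

end Pool.Agent.Results.MP_8d1edd_lc.ContinuousNotSmooth
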